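import Pool.Agent.H27.Rein4

open MeasureTheory Set Filter Topology Metric UnitAddTorus
open scoped ComplexConjugate InnerProductSpace
open Pool.Agent.H27.Rein

namespace Pool.Agent.Results.MP_dc9318_an.NoHS

variable {n : ℕ} {Ω : Set (Fin n → ℂ)}

lemma mon_zsmul (k : ℤ) (β : Fin n → ℤ) (z : Fin n → ℂ) : mon (k • β) z = mon β z ^ k := by
  simp only [mon, Pi.smul_apply, smul_eq_mul, ← Finset.prod_zpow, ← zpow_mul, mul_comm]

lemma two_pts (ho : IsOpen Ω) (hne : Ω.Nonempty) {β : Fin n → ℤ} (hβ : β ≠ 0) :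
    ∃ z1 ∈ Ω ∩ Ust n, ∃ z2 ∈ Ω ∩ Ust n, ‖mon β z1‖ ^ 2 < ‖mon β z2‖ ^ 2 := by
  obtain ⟨z, hz⟩ := dense_Ust.inter_open_nonempty _ ho hne
  obtain ⟨j, hj⟩ := Function.ne_iff.1 hβ
  have hc : Continuous fun t : ℝ => Function.update z j ((t : ℂ) * z j) := by fun_prop
  have h1 : ∀ᶠ t : ℝ in 𝓝 1, Function.update z j ((t : ℂ) * z j) ∈ Ω ∩ Ust n :=
    hc.continuousAt.eventually_mem ((ho.inter open_Ust).mem_nhds (by simpa using hz))
  obtain ⟨t, ht, t1⟩ := ((h1.filter_mono nhdsWithin_le_nhds).and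
    (self_mem_nhdsWithin (s := Ioi (1:ℝ)))).exists
  have t1 : 1 < t := t1
  have e : mon β (Function.update z j ((t : ℂ) * z j)) = (t : ℂ) ^ β j * mon β z := by
    unfold mon
    rw [← Finset.mul_prod_erase _ _ (Finset.mem_univ j),
      ← Finset.mul_prod_erase _ (fun i => z i ^ β i) (Finset.mem_univ j), Function.update_self,
      mul_zpow, mul_assoc]
    congr 2
    exact Finset.prod_congr rfl fun i hi => by
      rw [Function.update_of_ne (Finset.ne_of_mem_erase hi)]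
  have hne : ‖mon β z‖ ^ 2 ≠ ‖mon β (Function.update z j ((t : ℂ) * z j))‖ ^ 2 := by
    intro h
    rw [sq_eq_sq₀ (norm_nonneg _) (norm_nonneg _), e, norm_mul, norm_zpow, Complex.norm_real,
      Real.norm_of_nonneg (by linarith), eq_comm,
      mul_eq_right₀ (norm_ne_zero_iff.2 (mon_ne β hz.2)),
      zpow_eq_one_iff_right₀ (by linarith) t1.ne'] at h
    exact hj h
  rcases hne.lt_or_gt with h | h
  · exact ⟨_, hz, _, ht, h⟩
  · exact ⟨_, ht, _, hz, h⟩

lemma lowb (ho : IsOpen Ω) {α : Fin n → ℤ} (hα : IntegrableOn (fun z => ‖mon α z‖ ^ 2) Ω)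
    (β : Fin n → ℤ) {t : ℝ} (t0 : 0 ≤ t) {z0 : Fin n → ℂ} (h0 : z0 ∈ Ω ∩ Ust n)
    (ht : t < ‖mon β z0‖ ^ 2) :
    ∃ c > 0, ∀ k : ℕ, IntegrableOn (fun z => ‖mon (α + (k : ℤ) • β) z‖ ^ 2) Ω →
      c * t ^ k ≤ ∫ z in Ω, ‖mon (α + (k : ℤ) • β) z‖ ^ 2 := by
  obtain ⟨O, hO, oO, zO⟩ := _root_.eventually_nhds_iff.1 (((ho.inter open_Ust).eventually_mem h0).and
    (continuousAt_const.eventually_lt
      ((diff_mon β fun j => Or.inl (h0.2 j)).continuousAt.norm.pow 2) ht))
  have ss : O ⊆ Ω := fun z hz => (hO z hz).1.1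
  refine ⟨∫ z in O, ‖mon α z‖ ^ 2, int_pos (restrict_ne (oO.mem_nhds zO))
    (ae_restrict_of_ae ae_Ust) (hα.mono_set ss), fun k hk => ?_⟩
  refine le_trans ?_ (setIntegral_mono_set hk (ae_of_all _ fun z => by positivity) ss.eventuallyLE)
  rw [← integral_mul_const]
  refine setIntegral_mono_on ((hα.mono_set ss).mul_const _) (hk.mono_set ss) oO.measurableSet
    fun z hz => ?_
  rw [mon_add _ _ (hO z hz).1.2, mon_zsmul, norm_mul, mul_pow, zpow_natCast, norm_pow, ← pow_mul,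
    mul_comm k 2, pow_mul]
  gcongr
  exact (hO z hz).2.le

theorem aux (n : ℕ) (hn : 2 ≤ n) (Ω : Set (Fin n → ℂ)) (ho : IsOpen Ω) (hc : IsConnected Ω)
    (hb : Bornology.IsBounded Ω)
    (hR : ∀ z ∈ Ω, ∀ θ : Fin n → ℝ, (fun j => Complex.exp (θ j * Complex.I) * z j) ∈ Ω)
    (f : (Fin n → ℂ) → ℂ) (hf : DifferentiableOn ℂ f Ω)
    (T : A2 Ω →L[ℂ] Lp ℂ 2 (volume.restrict Ω))
    (hd : Dense {g : A2 Ω | MemLp (fun z => conj (f z) * (g : Lp ℂ 2 (volume.restrict Ω)) z) 2
      (volume.restrict Ω)})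
    (hT : ∀ (g : A2 Ω) (u : Lp ℂ 2 (volume.restrict Ω)),
      (u =ᵐ[volume.restrict Ω] fun z => conj (f z) * (g : Lp ℂ 2 (volume.restrict Ω)) z) →
      u - T g ∈ A2 Ω ∧ T g ∈ (A2 Ω)ᗮ)
    (ι : Type) (e : HilbertBasis ι ℂ (A2 Ω)) (hs : Summable fun i => ‖T (e i)‖ ^ 2) :
    T = 0 := by
  classical
  have hi : H27.Rein.Inv Ω := by
    intro θ z hz
    choose x hx using fun j => QuotientAddGroup.mk_surjective (θ j)
    convert hR z hz fun j => 2 * Real.pi * x j using 1
    ext j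
    simp only [rot, ← hx j, fourier_coe_apply]
    congr 2; push_cast; ring
  choose a ha using laurent ho hc.2 hi hf
  by_cases h0 : ∀ β ≠ 0, a β = 0
  · have hfa : ∀ z ∈ Ω ∩ Ust n, f z = a 0 := fun z hz => by
      rw [uniq hi hf.continuousOn hz.1 fun γ hγ => by rw [ha γ z hz, h0 γ hγ, zero_mul], ha 0 z hz]
      simp [mon]
    refine ContinuousLinearMap.coeFn_injective
      (Continuous.ext_on hd T.continuous (0 : A2 Ω →L[ℂ] _).continuous fun g _ => ?_)
    obtain ⟨h1, h2⟩ := hT g (conj (a 0) • (g : Lp ℂ 2 (volume.restrict Ω))) (by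
      filter_upwards [Lp.coeFn_smul (conj (a 0)) (g : Lp ℂ 2 (volume.restrict Ω)), ae_mem ho]
        with z h1 h2
      rw [h1, hfa z h2]; rfl)
    have h3 : T g ∈ A2 Ω := by
      simpa using (A2 Ω).sub_mem ((A2 Ω).smul_mem (conj (a 0)) g.2) h1
    exact inner_self_eq_zero.1 (h2 _ h3)
  exfalso
  push Not at h0
  obtain ⟨β, hβ, hb0⟩ := h0
  set b := conj (a β) with hbdef
  have b0 : b ≠ 0 := by simpa [hbdef] using hb0
  let P : (Fin n → ℤ) → Prop := fun α => IntegrableOn (fun z => ‖mon α z‖ ^ 2) Ω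
  let U : (Fin n → ℤ) → ℝ := fun α => ∫ z in Ω, ‖mon α z‖ ^ 2
  obtain ⟨z0, hz0⟩ := hc.1
  have Upos : ∀ α, P α → 0 < U α := fun α h =>
    int_pos (restrict_ne (ho.mem_nhds hz0)) (ae_restrict_of_ae ae_Ust) h
  have mm : ∀ α : Fin n → ℤ, Measurable (mon α) := fun α => by unfold mon; fun_prop
  have nsq : ∀ (w : Lp ℂ 2 (volume.restrict Ω)), ⟪w, w⟫_ℂ = (‖w‖ ^ 2 : ℝ) := fun w => by
    rw [inner_self_eq_norm_sq_to_K]; simp
  have ex : ∀ α, ∃ (u : A2 Ω) (c : ℂ), P α → ‖u‖ ^ 2 = U α ∧ ∀ K φ, Good Ω K φ →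
      ∀ w : Lp ℂ 2 (volume.restrict Ω),
      w =ᵐ[volume.restrict Ω] K.indicator (fun z => mon (α - β) z * φ z) →
      ⟪w, T u⟫_ℂ = ∫ z in K, conj (φ z) * (b * (‖mon β z‖ ^ 2 : ℝ) - c) *
        (‖mon (α - β) z‖ ^ 2 : ℝ) := by
    intro α
    by_cases h : P α
    swap; · exact ⟨0, 0, fun h' => absurd h' h⟩
    have ml : MemLp (mon α) 2 (volume.restrict Ω) :=
      (memLp_two_iff_integrable_sq_norm (mm α).aestronglyMeasurable).2 h
    let u : A2 Ω := ⟨ml.toLp _, mon α,
      fun z hz => (diff_mon α (pole ho h hz)).differentiableWithinAt, ml.coeFn_toLp⟩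
    obtain ⟨c, hc'⟩ := core ho hc hb hi hf T hd (fun g u h => (hT g u h).1) (ha β) α u
      ml.coeFn_toLp
    refine ⟨u, c, fun _ => ⟨?_, hc'⟩⟩
    apply Complex.ofReal_injective
    rw [Submodule.coe_norm, ← nsq, L2.inner_def, ← integral_complex_ofReal]
    refine integral_congr_ae ?_
    filter_upwards [ml.coeFn_toLp] with z hz
    simp only [u, hz]
    rw [inner_self_eq_norm_sq_to_K]; simp
  choose u c hu using ex
  let G : (Fin n → ℤ) → (Fin n → ℂ) → ℝ := fun α z =>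
    ‖b * (‖mon β z‖ ^ 2 : ℝ) - c α‖ ^ 2 * ‖mon (α - β) z‖ ^ 2
  set S := ∑' i, ‖T (e i)‖ ^ 2
  have gd : ∀ α N, Good Ω (KK Ω N) fun z => b * (‖mon β z‖ ^ 2 : ℝ) - c α := fun α N =>
    ⟨KK_compact hb N, KK_sub N, KK_inv hi N,
      (continuousOn_const.mul (Complex.continuous_ofReal.comp_continuousOn
        (((cont_mon β).mono fun z hz => (KK_sub N hz).2).norm.pow 2))).sub continuousOn_const,
      fun θ z _ => by simp only [norm_mon_rot]⟩
  have ss : ∀ N, KK Ω N ⊆ Ω := fun N z hz => (KK_sub N hz).1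
  have bd : ∀ s : Finset (Fin n → ℤ), (∀ α ∈ s, P α) → ∀ N,
      ∑ α ∈ s, (∫ z in KK Ω N, G α z ∂(volume.restrict Ω)) / U α ≤ S := by
    intro s hs' N
    have ms := (KK_compact hb N).measurableSet
    choose w hw using fun α => exists_tv (Ω := Ω) (KK_compact hb N)
      (ψ := fun z => mon (α - β) z * (b * (‖mon β z‖ ^ 2 : ℝ) - c α))
      (((cont_mon (α - β)).mono fun z hz => (KK_sub N hz).2).mul (gd α N).cφ)
    have e1 : ∀ α, ((‖w α‖ ^ 2 : ℝ) : ℂ) = (∫ z in KK Ω N, G α z : ℝ) := by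
      intro α
      rw [← nsq, tv_inner ms (ss N) (hw α) (hw α), ← integral_complex_ofReal]
      refine setIntegral_congr_fun ms fun z hz => ?_
      simp only [indicator_of_mem hz, Complex.conj_mul', G, norm_mul]
      push_cast; ring
    have := hs_bound e T hs s u w (fun α _ α' _ hne => by
      rw [tv_inner ms (ss N) (hw α) (hw α'), ← orth (γ := α - β) (δ := α' - β)
        (fun h => hne (sub_left_injective h)) ms (KK_inv hi N)
        (φ := fun z => conj (b * (‖mon β z‖ ^ 2 : ℝ) - c α) * (b * (‖mon β z‖ ^ 2 : ℝ) - c α'))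
        (fun θ z _ => by simp only [norm_mon_rot])]
      refine setIntegral_congr_fun ms fun z hz => ?_
      simp only [indicator_of_mem hz, map_mul]
      ring) (fun α hα => by
      rw [(hu α (hs' α hα)).2 _ _ (gd α N) _ (hw α), e1, ← integral_complex_ofReal]
      refine setIntegral_congr_fun ms fun z _ => ?_
      simp only [Complex.conj_mul', G]
      push_cast; ring)
    refine le_trans (le_of_eq (Finset.sum_congr rfl fun α hα => ?_)) this
    rw [(hu α (hs' α hα)).1, Complex.ofReal_injective (e1 α),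
      Measure.restrict_restrict_of_subset (ss N)]
  have iG : ∀ α, P α → Integrable (G α) (volume.restrict Ω) := by
    intro α h
    refine (KK_cover ho hb).integrable_of_integral_bounded_of_nonneg_ae (S * U α) (fun N => ?_)
      (ae_of_all _ fun z => by positivity) (Eventually.of_forall fun N => ?_)
    · rw [IntegrableOn, Measure.restrict_restrict_of_subset (ss N)]
      exact (((gd α N).cφ.norm.pow 2).mul (((cont_mon (α - β)).mono
        fun z hz => (KK_sub N hz).2).norm.pow 2)).integrableOn_compact (KK_compact hb N)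
    · have := bd {α} (by simpa using h) N
      rwa [Finset.sum_singleton, div_le_iff₀ (Upos α h)] at this
  have bd' : ∀ s : Finset (Fin n → ℤ), (∀ α ∈ s, P α) →
      ∑ α ∈ s, (∫ z in Ω, G α z) / U α ≤ S := fun s hs' =>
    le_of_tendsto' (tendsto_finset_sum s fun α hα =>
      ((KK_cover ho hb).integral_tendsto_of_countably_generated (iG α (hs' α hα))).div_const _)
      (bd s hs')
  have st : ∀ α, P α → P (α + β) ∧
      U (α + β) / U α - U α / U (α - β) ≤ (∫ z in Ω, G α z) / U α / ‖b‖ ^ 2 := by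
    intro α h
    have q1 : (fun z => ‖mon β z‖ ^ 2 * ‖mon (α - β) z‖ ^ 2) =ᵐ[volume.restrict Ω]
        fun z => ‖mon α z‖ ^ 2 := by
      filter_upwards [ae_mem ho] with z hz
      rw [← mul_pow, ← norm_mul, ← mon_add _ _ hz.2, add_sub_cancel]
    have q2 : (fun z => (‖mon β z‖ ^ 2) ^ 2 * ‖mon (α - β) z‖ ^ 2) =ᵐ[volume.restrict Ω]
        fun z => ‖mon (α + β) z‖ ^ 2 := by
      filter_upwards [ae_mem ho, q1] with z hz hq
      rw [mon_add _ _ hz.2, norm_mul, mul_pow, ← hq]; ring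
    obtain ⟨i1, i2⟩ := step (μ := volume.restrict Ω) (w := fun z => ‖mon (α - β) z‖ ^ 2)
      (X := fun z => ‖mon β z‖ ^ 2) (a := c α) b0 ((mm _).norm.pow_const 2).aestronglyMeasurable
      ((mm _).norm.pow_const 2).aestronglyMeasurable (fun _ => by positivity)
      (fun _ => by positivity) (h.integrable.congr q1.symm) (iG α h)
    refine ⟨i1.congr q2, ?_⟩
    rw [integral_congr_ae q1, integral_congr_ae q2] at i2
    have := Upos α h
    rw [le_div_iff₀ (by positivity), le_div_iff₀ this]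
    refine le_trans (le_of_eq ?_) i2
    simp only [U] at this ⊢
    field_simp
  obtain ⟨z1, h1, z2, h2, h12⟩ := two_pts ho hc.1 hβ
  obtain ⟨j, hj⟩ := Function.ne_iff.1 hβ
  haveI : Nontrivial (Fin n) := Fin.nontrivial_iff_two_le.2 hn
  obtain ⟨i, hij⟩ := exists_ne j
  set x1 := ‖mon β z1‖ ^ 2
  set x2 := ‖mon β z2‖ ^ 2
  have x0 : 0 < x1 := pow_pos (norm_pos_iff.2 (mon_ne β h1.2)) 2
  set δ := (x2 - x1) / 5 with hδ
  have δ0 : 0 < δ := by rw [hδ]; linarith
  let E : ℕ → ℤ → Fin n → ℤ := fun m k => Pi.single i (m : ℤ) + k • β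
  have ln : ∀ m : ℕ, ∃ J L : ℕ, (∀ l < L, P (E m (l - J))) ∧ x1 + 3 * δ - (x1 + 2 * δ) ≤
      ∑ l ∈ Finset.range L, (∫ z in Ω, G (E m (l - J)) z) / U (E m (l - J)) / ‖b‖ ^ 2 := by
    intro m
    have p0 : P (Pi.single i (m : ℤ)) := by
      refine IntegrableOn.mono_set (ContinuousOn.integrableOn_compact hb.isCompact_closure
        fun z _ => ?_) subset_closure
      refine ((diff_mon _ fun l => Or.inr ?_).continuousAt.norm.pow 2).continuousWithinAt
      by_cases hl : l = i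
      · subst hl; simp
      · simp [hl]
    obtain ⟨c1, c10, hc1⟩ := lowb ho p0 β (t := x1 + 4 * δ) (by positivity) h2
      (by simp only [hδ]; linarith)
    obtain ⟨c2, c20, hc2⟩ := lowb ho p0 (-β) (t := (x1 + δ)⁻¹) (by positivity) h1 (by
      rw [← neg_one_smul ℤ β, mon_zsmul, zpow_neg_one, norm_inv, inv_pow]
      exact inv_strictAnti₀ x0 (by linarith))
    refine line (U := fun k => U (E m k)) (P := fun k => P (E m k)) (t' := (x1 + δ)⁻¹)
      (d := fun k => (∫ z in Ω, G (E m k) z) / U (E m k) / ‖b‖ ^ 2) (by simpa [E] using p0)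
      (fun k => Upos _) (fun k h => integral_undef h) (fun k h => ?_) (by positivity)
      (by linarith) c10 (by positivity) (inv_strictAnti₀ (by positivity) (by linarith)) c20
      hc1 (fun k => by simpa [E] using hc2 k)
    have e1 : E m (k + 1) = E m k + β := by simp only [E, add_smul, add_assoc, one_smul]
    have e2 : E m (k - 1) = E m k - β := by simp only [E, sub_smul, add_sub_assoc, one_smul]
    simp only [e1, e2]
    exact st _ h
  choose J L hP hL using ln
  obtain ⟨M, hM⟩ := exists_nat_gt (S / ‖b‖ ^ 2 / δ)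
  have inj : InjOn (fun p : (_ : ℕ) × ℕ => E p.1 (p.2 - J p.1))
      ((Finset.range M).sigma fun m => Finset.range (L m)) := by
    rintro ⟨m, l⟩ _ ⟨m', l'⟩ _ h
    have e1 := congrFun h j
    have e2 := congrFun h i
    simp only [E, Pi.add_apply, Pi.single_eq_of_ne hij.symm, Pi.smul_apply, smul_eq_mul, zero_add,
      Pi.single_eq_same] at e1 e2
    have e3 := mul_right_cancel₀ hj e1
    rw [e3] at e2
    obtain rfl : m = m' := by omega
    obtain rfl : l = l' := by omega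
    rfl
  have := bd' (((Finset.range M).sigma fun m => Finset.range (L m)).image
    fun p => E p.1 (p.2 - J p.1)) (fun α hα => by
      obtain ⟨p, hp, rfl⟩ := Finset.mem_image.1 hα
      exact hP _ _ (Finset.mem_range.1 (Finset.mem_sigma.1 hp).2))
  rw [Finset.sum_image inj, Finset.sum_sigma] at this
  have h3 := Finset.sum_le_sum fun m (_ : m ∈ Finset.range M) => hL m
  simp only [← Finset.sum_div] at h3
  rw [div_lt_iff₀ δ0] at hM
  have h4 := div_le_div_of_nonneg_right this (sq_nonneg ‖b‖)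
  simp only [Finset.sum_const, Finset.card_range, nsmul_eq_mul] at h3
  nlinarith

/-- `u` is the product of `conj f` and `g`. -/
def MulConj {Z : Type} [MeasurableSpace Z] (μ : Measure Z) (f : Z → ℂ) (g u : Lp ℂ 2 μ) : Prop :=
  u =ᵐ[μ] fun z => conj (f z) * g z

/-- The classes in `L²(μ)` having a representative that is holomorphic on `Ω`. -/
def Hol {E : Type} [NormedAddCommGroup E] [NormedSpace ℂ E] [MeasurableSpace E] (μ : Measure E)
    (Ω : Set E) : Set (Lp ℂ 2 μ) :=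
  {g | ∃ h : E → ℂ, DifferentiableOn ℂ h Ω ∧ g =ᵐ[μ] h}

section
variable {H : Type} [NormedAddCommGroup H] [InnerProductSpace ℂ H]

/-- The domain of the multiplication `M` is dense in `A`. -/
def DenseDom (A : Submodule ℂ H) (M : H → H → Prop) : Prop := Dense {g : A | ∃ u, M g u}

/-- On the domain of `M`, `t g = (I - P) (M g)`, `P` the orthogonal projection onto `A`. -/
def IsHankel (A : Submodule ℂ H) (M : H → H → Prop) (t : A → H) : Prop :=
  ∀ (g : A) (u : H), M g u → u - t g ∈ A ∧ t g ∈ Aᗮ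

/-- The Hilbert-Schmidt condition. -/
def IsHS (A : Submodule ℂ H) (t : A → H) : Prop :=
  ∃ (ι : Type) (e : HilbertBasis ι ℂ A), Summable fun i => ‖t (e i)‖ ^ 2

/-- If `t` is a Hilbert-Schmidt extension of the densely defined Hankel operator then `t = 0`. -/
def Vanish (A : Submodule ℂ H) (M : H → H → Prop) (t : A → H) : Prop :=
  DenseDom A M → IsHankel A M t → IsHS A t → ∀ g, t g = 0

/-- `Vanish` holds for every bounded linear operator from `A` to `H`. -/
def OnlyZero (A : Submodule ℂ H) (M : H → H → Prop) : Prop := ∀ T : A →L[ℂ] H, Vanish A M T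

/-- `OnlyZero` for the subspace spanned by `S`. -/
def OnlyZeroSpan (S : Set H) (M : H → H → Prop) : Prop := OnlyZero (Submodule.span ℂ S) M

end

theorem result (n : ℕ) (hn : 2 ≤ n) (Ω : Set (Fin n → ℂ)) (ho : IsOpen Ω) (hc : IsConnected Ω)
    (hb : Bornology.IsBounded Ω)
    (hR : ∀ z ∈ Ω, ∀ θ : Fin n → ℝ, (fun j => Complex.exp (θ j * Complex.I) * z j) ∈ Ω)
    (f : (Fin n → ℂ) → ℂ) (hf : DifferentiableOn ℂ f Ω) :
    OnlyZeroSpan (Hol (volume.restrict Ω) Ω) (MulConj (volume.restrict Ω) f) := by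
  have : Submodule.span ℂ (Hol (volume.restrict Ω) Ω) = A2 Ω := Submodule.span_eq (A2 Ω)
  unfold OnlyZeroSpan
  rw [this]
  rintro T hd hT ⟨ι, e, hs⟩ g
  rw [aux n hn Ω ho hc hb hR f hf T (hd.mono ?_) hT ι e hs]
  · rfl
  · rintro g ⟨u, hu⟩
    exact (memLp_congr_ae hu).1 (Lp.memLp u)

end Pool.Agent.Results.MP_dc9318_an.NoHS
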